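import Mathlib

set_option autoImplicit false

/-!
A direct limit of free modules which is projective, is not finitely generated, and is killed by a
given quotient of the ring (the telescope of J. M. Whitehead).
-/

namespace Pool.Agent.W410.Proj

universe u v w

section abstract

variable {R : Type u} [Ring R] {F : Type v} [AddCommGroup F] [Module R F]

/-- the constant system with transition map `φ` -/
def tr (φ : F →ₗ[R] F) (i j : ℕ) (_ : i ≤ j) : F →ₗ[R] F := φ ^ (j - i)

/-- the limit of `F → F → F → ...` -/
abbrev Lim (φ : F →ₗ[R] F) : Type v := Module.DirectLimit (fun _ : ℕ => F) (tr φ)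

/-- the canonical maps -/
noncomputable def oo (φ : F →ₗ[R] F) (i : ℕ) : F →ₗ[R] Lim φ :=
  Module.DirectLimit.of R ℕ (fun _ => F) (tr φ) i

lemma oo_succ (φ : F →ₗ[R] F) (i : ℕ) (x : F) : oo φ (i + 1) (φ x) = oo φ i x := by
  have h := Module.DirectLimit.of_f (R := R) (ι := ℕ) (G := fun _ => F) (f := tr φ)
    (i := i) (j := i + 1) (hij := Nat.le_succ i) (x := x)
  have h2 : tr φ i (i + 1) (Nat.le_succ i) x = φ x := by
    simp [tr]
  rw [h2] at h
  exact h

lemma oo_surj (φ : F →ₗ[R] F) (p : Lim φ) : ∃ i x, oo φ i x = p :=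
  Module.DirectLimit.exists_of p

instance sys (φ : F →ₗ[R] F) : DirectedSystem (fun _ : ℕ => F) (fun i j h => tr φ i j h) where
  map_self i x := by simp [tr]
  map_map i j k hij hjk x := by
    simp only [tr]
    rw [← Module.End.mul_apply, ← pow_add]
    congr 2
    omega

lemma oo_eq_zero (φ : F →ₗ[R] F) (hφ : Function.Injective φ) (i : ℕ) (x : F)
    (h : oo φ i x = 0) : x = 0 := by
  obtain ⟨j, hij, hj⟩ := Module.DirectLimit.of.zero_exact h
  have : Function.Injective (tr φ i j hij) := by
    have h2 : ∀ n, Function.Injective ((φ ^ n : F →ₗ[R] F)) := by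
      intro n
      induction n with
      | zero => intro a b h; simpa using h
      | succ n ih =>
        intro a b h
        rw [pow_succ] at h
        exact hφ (ih h)
    exact h2 _
  exact this (by rw [hj, map_zero])

variable (φ g : F →ₗ[R] F)

/-- the maps `F → F` which define the map from the limit to the `k`-th copy -/
def th (k j : ℕ) : F →ₗ[R] F := g ^ (j - k) * φ ^ ((k - j) + 1)

variable {φ g}

lemma th_succ (h : ∀ x, g (φ (φ x)) = φ x) (k j : ℕ) (x : F) :
    th φ g k (j + 1) (φ x) = th φ g k j x := by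
  unfold th
  rcases Nat.lt_or_ge j k with hjk | hjk
  · have h1 : j + 1 - k = 0 := by omega
    have h2 : j - k = 0 := by omega
    have h3 : k - j + 1 = (k - (j + 1) + 1) + 1 := by omega
    rw [h1, h2, h3, pow_succ φ (k - (j + 1) + 1)]
    simp only [Module.End.mul_apply]
  · have h1 : j + 1 - k = (j - k) + 1 := by omega
    have h2 : k - (j + 1) = 0 := by omega
    have h3 : k - j = 0 := by omega
    rw [h1, h2, h3, pow_succ g]
    simp only [Module.End.mul_apply, zero_add, pow_one]
    rw [h]

/-- the differences -/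
def D (φ g : F →ₗ[R] F) : ℕ → ℕ → F →ₗ[R] F
  | 0, j => th φ g 0 j
  | (k + 1), j => th φ g (k + 1) j - φ * th φ g k j

lemma D_succ (h : ∀ x, g (φ (φ x)) = φ x) (k j : ℕ) (x : F) :
    D φ g k (j + 1) (φ x) = D φ g k j x := by
  cases k with
  | zero => exact th_succ h 0 j x
  | succ k =>
    simp only [D, LinearMap.sub_apply, Module.End.mul_apply]
    rw [th_succ h, th_succ h]

lemma D_last (h : ∀ x, g (φ (φ x)) = φ x) (j : ℕ) (x : F) :
    D φ g (j + 1) (j + 1) (φ x) = 0 := by
  simp only [D, LinearMap.sub_apply, Module.End.mul_apply]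
  rw [th_succ h, th_succ h]
  unfold th
  have h1 : j - (j + 1) = 0 := by omega
  have h2 : j + 1 - j = 1 := by omega
  rw [h1, h2]
  simp [pow_two]

/-- the section on the `j`-th copy -/
noncomputable def sec (φ g : F →ₗ[R] F) (j : ℕ) : F →ₗ[R] (ℕ →₀ F) :=
  ∑ k ∈ Finset.range (j + 1), (Finsupp.lsingle k : F →ₗ[R] (ℕ →₀ F)) ∘ₗ D φ g k j

lemma sec_succ (h : ∀ x, g (φ (φ x)) = φ x) (j : ℕ) (x : F) :
    sec φ g (j + 1) (φ x) = sec φ g j x := by
  unfold sec
  rw [Finset.sum_range_succ]
  simp only [LinearMap.add_apply, LinearMap.coe_comp, Function.comp_apply, LinearMap.sum_apply]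
  rw [D_last h, map_zero, add_zero]
  refine Finset.sum_congr rfl fun k _ => ?_
  rw [D_succ h]

lemma sec_tr (h : ∀ x, g (φ (φ x)) = φ x) (i j : ℕ) (hij : i ≤ j) (x : F) :
    sec φ g j (tr φ i j hij x) = sec φ g i x := by
  obtain ⟨m, rfl⟩ := Nat.exists_eq_add_of_le hij
  simp only [tr, Nat.add_sub_cancel_left]
  clear hij
  induction m generalizing x with
  | zero => simp
  | succ m ih =>
    rw [pow_succ', Module.End.mul_apply, ← add_assoc, sec_succ h]
    exact ih x

/-- the section -/
noncomputable def section' (h : ∀ x, g (φ (φ x)) = φ x) : Lim φ →ₗ[R] (ℕ →₀ F) :=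
  Module.DirectLimit.lift R ℕ (fun _ => F) (tr φ) (sec φ g) (fun i j hij x => sec_tr h i j hij x)

/-- the projection from the sum of the copies -/
noncomputable def proj' (φ : F →ₗ[R] F) : (ℕ →₀ F) →ₗ[R] Lim φ :=
  Finsupp.lsum ℕ (fun k => oo φ (k + 1))

lemma proj_sum (j m : ℕ) (x : F) :
    ∑ k ∈ Finset.range (m + 1), oo φ (k + 1) (D φ g k j x) = oo φ (m + 1) (th φ g m j x) := by
  induction m with
  | zero => simp [D]
  | succ m ih =>
    rw [Finset.sum_range_succ, ih]
    simp only [D, LinearMap.sub_apply, Module.End.mul_apply, map_sub]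
    rw [oo_succ]
    abel

lemma proj_section (h : ∀ x, g (φ (φ x)) = φ x) :
    proj' φ ∘ₗ section' h = LinearMap.id := by
  apply LinearMap.ext
  intro p
  obtain ⟨j, x, rfl⟩ := oo_surj φ p
  have h1 : section' h (oo φ j x) = sec φ g j x :=
    Module.DirectLimit.lift_of _ _ _
  simp only [LinearMap.comp_apply, LinearMap.id_apply]
  rw [h1]
  unfold sec proj'
  simp only [LinearMap.sum_apply, LinearMap.comp_apply, map_sum, Finsupp.lsingle_apply,
    Finsupp.lsum_single]
  rw [proj_sum]
  have h2 : th φ g j j x = φ x := by simp [th]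
  rw [h2, oo_succ]

theorem projective_lim [Module.Free R F] (h : ∀ x, g (φ (φ x)) = φ x) :
    Module.Projective R (Lim φ) :=
  Module.Projective.of_split (section' h) (proj' φ) (proj_section h)

/-- if every linear functional on `F` maps `φ x` into the kernel of `ε`, the same is true for the
limit -/
lemma eps_functional {S : Type w} [Ring S] (ε : R →+* S)
    (hε : ∀ (c : F →ₗ[R] R) (x : F), ε (c (φ x)) = 0) (c : Lim φ →ₗ[R] R) (p : Lim φ) :
    ε (c p) = 0 := by
  obtain ⟨j, x, rfl⟩ := oo_surj φ p
  rw [← oo_succ]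
  exact hε (c ∘ₗ oo φ (j + 1)) x

lemma range_mono (i j : ℕ) (hij : i ≤ j) : LinearMap.range (oo φ i) ≤ LinearMap.range (oo φ j) := by
  obtain ⟨m, rfl⟩ := Nat.exists_eq_add_of_le hij
  clear hij
  induction m with
  | zero => exact le_rfl
  | succ m ih =>
    refine ih.trans ?_
    rintro _ ⟨x, rfl⟩
    exact ⟨φ x, by rw [← add_assoc, oo_succ]⟩

lemma not_finite (hφ : Function.Injective φ) (hs : ¬ Function.Surjective φ) :
    ¬ Module.Finite R (Lim φ) := by
  rintro ⟨⟨S, hS⟩⟩
  have h1 : ∃ K, ∀ s ∈ S, s ∈ LinearMap.range (oo φ K) := by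
    classical
    clear hS
    induction S using Finset.induction_on with
    | empty => exact ⟨0, fun s hs => absurd hs (Finset.notMem_empty _)⟩
    | insert a S _ ih =>
      obtain ⟨K, hK⟩ := ih
      obtain ⟨j, x, hx⟩ := oo_surj φ a
      refine ⟨max K j, fun s hs' => ?_⟩
      rcases Finset.mem_insert.1 hs' with rfl | hs'
      · exact range_mono _ _ (le_max_right _ _) ⟨x, hx⟩
      · exact range_mono _ _ (le_max_left _ _) (hK s hs')
  obtain ⟨K, hK⟩ := h1
  have h2 : LinearMap.range (oo φ K) = ⊤ := by
    rw [eq_top_iff, ← hS, Submodule.span_le]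
    exact hK
  apply hs
  intro y
  have h3 : oo φ (K + 1) y ∈ LinearMap.range (oo φ K) := by rw [h2]; trivial
  obtain ⟨x, hx⟩ := h3
  refine ⟨x, ?_⟩
  rw [← oo_succ, ← sub_eq_zero, ← map_sub] at hx
  have h4 := oo_eq_zero φ hφ _ _ hx
  exact sub_eq_zero.1 h4

end abstract

section words

variable {R : Type u} [Ring R] {n : ℕ}

/-- the free module on words -/
abbrev W (R : Type u) [Ring R] (n : ℕ) : Type u := List (Fin n) →₀ R

/-- `e_w ↦ ∑ b_i e_{i :: w}` -/
noncomputable def ph (b : Fin n → R) : W R n →ₗ[R] W R n :=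
  Finsupp.linearCombination R (fun w => ∑ i, Finsupp.single (i :: w) (b i))

/-- the value of `g` on the words -/
noncomputable def gw (E : Fin n → Fin n → Fin n → R) : List (Fin n) → W R n
  | [] => 0
  | [_] => 0
  | l :: i :: w => ∑ j, Finsupp.single (j :: w) (E i l j)

/-- the map `g` -/
noncomputable def gg (E : Fin n → Fin n → Fin n → R) : W R n →ₗ[R] W R n :=
  Finsupp.linearCombination R (gw E)

lemma ph_single (b : Fin n → R) (w : List (Fin n)) (r : R) :
    ph b (Finsupp.single w r) = ∑ i, Finsupp.single (i :: w) (r * b i) := by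
  unfold ph
  rw [Finsupp.linearCombination_single, Finset.smul_sum]
  exact Finset.sum_congr rfl fun i _ => by rw [Finsupp.smul_single, smul_eq_mul]

lemma gg_single (E : Fin n → Fin n → Fin n → R) (l i : Fin n) (w : List (Fin n)) (r : R) :
    gg E (Finsupp.single (l :: i :: w) r) = ∑ j, Finsupp.single (j :: w) (r * E i l j) := by
  unfold gg
  rw [Finsupp.linearCombination_single, gw, Finset.smul_sum]
  exact Finset.sum_congr rfl fun i _ => by rw [Finsupp.smul_single, smul_eq_mul]

lemma gg_ph_ph (b : Fin n → R) (E : Fin n → Fin n → Fin n → R)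
    (hb : ∀ j, b j = ∑ i, ∑ l, b i * b l * E i l j) (x : W R n) :
    gg E (ph b (ph b x)) = ph b x := by
  have h : (gg E ∘ₗ ph b ∘ₗ ph b) = ph b := by
    apply Finsupp.lhom_ext
    intro w r
    simp only [LinearMap.comp_apply]
    rw [ph_single]
    simp only [map_sum, ph_single, gg_single]
    have h1 : ∀ i : Fin n, ∑ l, ∑ j, Finsupp.single (j :: w) (r * b i * b l * E i l j) =
        ∑ j, ∑ l, Finsupp.single (j :: w) (r * b i * b l * E i l j) := fun i => Finset.sum_comm
    rw [Finset.sum_congr rfl (fun i _ => h1 i), Finset.sum_comm]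
    refine Finset.sum_congr rfl fun j _ => ?_
    simp only [← Finsupp.single_finsetSum]
    congr 1
    conv_rhs => rw [hb j]
    rw [Finset.mul_sum]
    refine Finset.sum_congr rfl fun i _ => ?_
    rw [Finset.mul_sum]
    refine Finset.sum_congr rfl fun l _ => ?_
    simp only [mul_assoc]
  exact LinearMap.congr_fun h x

lemma ph_apply_nil (b : Fin n → R) (x : W R n) : ph b x [] = 0 := by
  induction x using Finsupp.induction_linear with
  | zero => simp
  | add x y hx hy => rw [map_add, Finsupp.add_apply, hx, hy, add_zero]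
  | single w r =>
    rw [ph_single, Finsupp.finsetSum_apply]
    exact Finset.sum_eq_zero fun i _ => by rw [Finsupp.single_apply, if_neg (by simp)]

lemma ph_apply_cons (b : Fin n → R) (x : W R n) (i : Fin n) (w : List (Fin n)) :
    ph b x (i :: w) = x w * b i := by
  induction x using Finsupp.induction_linear with
  | zero => simp
  | add x y hx hy => rw [map_add, Finsupp.add_apply, hx, hy, Finsupp.add_apply, add_mul]
  | single w' r =>
    rw [ph_single, Finsupp.finsetSum_apply]
    by_cases h : w' = w
    · subst h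
      rw [Finset.sum_eq_single i]
      · simp
      · intro j _ hj
        rw [Finsupp.single_apply, if_neg]
        intro h
        exact hj (List.cons.inj h).1
      · intro h
        exact absurd (Finset.mem_univ _) h
    · rw [Finsupp.single_apply, if_neg h, zero_mul]
      refine Finset.sum_eq_zero fun j _ => ?_
      rw [Finsupp.single_apply, if_neg]
      intro h'
      exact h (List.cons.inj h').2

lemma ph_injective (b : Fin n → R) (hb : ∀ r : R, (∀ i, r * b i = 0) → r = 0) :
    Function.Injective (ph b) := by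
  rw [injective_iff_map_eq_zero]
  intro x hx
  ext w
  apply hb
  intro i
  rw [← ph_apply_cons, hx]
  rfl

lemma ph_not_surjective [Nontrivial R] (b : Fin n → R) : ¬ Function.Surjective (ph b) := by
  intro h
  obtain ⟨x, hx⟩ := h (Finsupp.single [] 1)
  have h1 := ph_apply_nil b x
  rw [hx, Finsupp.single_eq_same] at h1
  exact one_ne_zero h1

lemma eps_ph {S : Type w} [Ring S] (ε : R →+* S) (b : Fin n → R) (hb : ∀ i, ε (b i) = 0)
    (c : W R n →ₗ[R] R) (x : W R n) : ε (c (ph b x)) = 0 := by
  induction x using Finsupp.induction_linear with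
  | zero => simp
  | add x y hx hy => rw [map_add, map_add, map_add, hx, hy, add_zero]
  | single w r =>
    rw [ph_single, map_sum, map_sum]
    refine Finset.sum_eq_zero fun i _ => ?_
    have h : Finsupp.single (i :: w) (r * b i) =
        (r * b i) • (Finsupp.single (i :: w) 1 : W R n) := by
      rw [Finsupp.smul_single, smul_eq_mul, mul_one]
    rw [h, map_smul, smul_eq_mul, map_mul, map_mul, hb, mul_zero, zero_mul]

/-- **Main construction.** Let `ε : R → S` be a ring homomorphism to a nontrivial ring, and let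
`b_j` be finitely many elements of the kernel with `b_j ∈ ∑ b_i b_l R` which do not have a common
nonzero left annihilator. If `R` is left noetherian, there is a projective left `R`-module which is
not the direct sum of a free module and a left ideal. -/
theorem main [Nontrivial R] [IsNoetherianRing R] {S : Type w} [Ring S] [Nontrivial S]
    (ε : R →+* S) (b : Fin n → R) (hε : ∀ i, ε (b i) = 0)
    (hb : ∀ r : R, (∀ i, r * b i = 0) → r = 0)
    (hE : ∃ E : Fin n → Fin n → Fin n → R, ∀ j, b j = ∑ i, ∑ l, b i * b l * E i l j) :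
    ∃ (P : Type u) (_ : AddCommGroup P) (_ : Module R P), Module.Projective R P ∧
      ∀ (F : Type v) [AddCommGroup F] [Module R F] [Module.Free R F] (L : Ideal R),
        IsEmpty (P ≃ₗ[R] F × L) := by
  obtain ⟨E, hE⟩ := hE
  refine ⟨Lim (ph b), inferInstance, inferInstance, projective_lim (gg_ph_ph b E hE), ?_⟩
  intro F _ _ _ L
  refine ⟨fun e => ?_⟩
  have hF : Subsingleton F := by
    let B := Module.Free.chooseBasis R F
    have hemp : IsEmpty (Module.Free.ChooseBasisIndex R F) := by
      refine ⟨fun i => ?_⟩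
      have h := eps_functional (φ := ph b) ε (eps_ph ε b hε)
        (B.coord i ∘ₗ LinearMap.fst R F L ∘ₗ e.toLinearMap) (e.symm (B i, 0))
      simp at h
    exact B.repr.toEquiv.subsingleton
  have hfin : Module.Finite R (Lim (ph b)) := by
    have h1 : Module.Finite R (F × L) := inferInstance
    exact Module.Finite.equiv e.symm
  exact not_finite (ph_injective b hb) (ph_not_surjective b) hfin

end words

end Pool.Agent.W410.Proj
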