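import Mathlib
import Pool.Agent.W410.Proj

set_option autoImplicit false

/-!
Group algebras: noetherianity over virtually abelian groups, and the ideal of a perfect group.
-/

namespace Pool.Agent.W410.Alg

open MonoidAlgebra

universe u v w

section noeth

variable {k : Type u} [CommRing k] {H : Type v} [Group H]

theorem noeth [IsNoetherianRing k] (N : Subgroup H) [N.FiniteIndex]
    (hN : ∀ a b : N, a * b = b * a) [hfg : Group.FG N] : IsNoetherianRing (MonoidAlgebra k H) := by
  classical
  let _ : CommGroup N := { (inferInstance : Group N) with mul_comm := hN }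
  have hft : Algebra.FiniteType k (MonoidAlgebra k N) := inferInstance
  have hA : IsNoetherianRing (MonoidAlgebra k N) := Algebra.FiniteType.isNoetherianRing k _
  let ι : MonoidAlgebra k N →+* MonoidAlgebra k H := mapDomainRingHom k N.subtype
  let _ : Module (MonoidAlgebra k N) (MonoidAlgebra k H) := Module.compHom _ ι
  have hsmul : ∀ (a : MonoidAlgebra k N) (x : MonoidAlgebra k H), a • x = ι a * x :=
    fun _ _ => rfl
  have hfin : Module.Finite (MonoidAlgebra k N) (MonoidAlgebra k H) := by
    have hfinq : Finite (H ⧸ N) := inferInstance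
    let S : Set (MonoidAlgebra k H) :=
      Set.range (fun q : H ⧸ N => (single (q.out)⁻¹ (1 : k) : MonoidAlgebra k H))
    have hS : S.Finite := Set.finite_range _
    refine ⟨⟨hS.toFinset, ?_⟩⟩
    rw [Set.Finite.coe_toFinset, eq_top_iff]
    intro x _
    induction x using MonoidAlgebra.induction_linear with
    | zero => exact Submodule.zero_mem _
    | add a b ha hb => exact Submodule.add_mem _ (ha trivial) (hb trivial)
    | single g r =>
      let q : H ⧸ N := QuotientGroup.mk g⁻¹
      obtain ⟨m, hm⟩ := QuotientGroup.mk_out_eq_mul N g⁻¹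
      have h1 : (single g r : MonoidAlgebra k H) =
          (single m r : MonoidAlgebra k N) • single (q.out)⁻¹ (1 : k) := by
        rw [hsmul]
        have h2 : ι (single m r) = single (m : H) r := by
          change mapDomain _ _ = _
          rw [mapDomain_single]
          rfl
        rw [h2, single_mul_single, mul_one]
        congr 1
        have h3 : q.out = g⁻¹ * m := hm
        rw [h3]
        group
      rw [h1]
      exact Submodule.smul_mem _ _ (Submodule.subset_span ⟨q, rfl⟩)
  have htower : IsScalarTower (MonoidAlgebra k N) (MonoidAlgebra k H) (MonoidAlgebra k H) := by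
    refine ⟨fun a x y => ?_⟩
    rw [hsmul, hsmul, smul_eq_mul, smul_eq_mul, mul_assoc]
  have h2 : IsNoetherian (MonoidAlgebra k N) (MonoidAlgebra k H) :=
    isNoetherian_of_isNoetherianRing_of_finite _ _
  exact isNoetherian_of_tower (MonoidAlgebra k N) h2

end noeth

section perfect

variable {k : Type u} [CommRing k] {H : Type v} [Group H]

/-- the augmentation -/
noncomputable def aug (k : Type u) [CommRing k] (H : Type v) [Group H] : MonoidAlgebra k H →+* k :=
  (MonoidAlgebra.lift k k H (1 : H →* k)).toRingHom

lemma aug_single (h : H) (r : k) : aug k H (single h r) = r := by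
  simp [aug, MonoidAlgebra.lift_single]

/-- the right submodule spanned by the products -/
noncomputable def RJ {n : ℕ} (b : Fin n → MonoidAlgebra k H) :
    Submodule (MonoidAlgebra k H)ᵐᵒᵖ (MonoidAlgebra k H) :=
  Submodule.span _ (Set.range (fun p : Fin n × Fin n => b p.1 * b p.2))

/-- the right submodule spanned by the elements -/
noncomputable def RI {n : ℕ} (b : Fin n → MonoidAlgebra k H) :
    Submodule (MonoidAlgebra k H)ᵐᵒᵖ (MonoidAlgebra k H) :=
  Submodule.span _ (Set.range b)

lemma mul_right_mem {M : Submodule (MonoidAlgebra k H)ᵐᵒᵖ (MonoidAlgebra k H)}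
    {x : MonoidAlgebra k H} (hx : x ∈ M) (r : MonoidAlgebra k H) : x * r ∈ M := by
  have := M.smul_mem (MulOpposite.op r) hx
  rwa [MulOpposite.smul_eq_mul_unop, MulOpposite.unop_op] at this

variable {n : ℕ} (s : Fin n → H)

/-- the differences `s_i - 1` -/
noncomputable def dd (k : Type u) [CommRing k] (s : Fin n → H) (i : Fin n) : MonoidAlgebra k H :=
  single (s i) 1 - 1

lemma mem_RI (hs : Subgroup.closure (Set.range s) = ⊤) (h : H) :
    (single h (1 : k) - 1 : MonoidAlgebra k H) ∈ RI (dd k s) := by
  have hh : h ∈ Subgroup.closure (Set.range s) := by rw [hs]; trivial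
  induction hh using Subgroup.closure_induction with
  | mem x hx =>
    obtain ⟨i, rfl⟩ := hx
    exact Submodule.subset_span ⟨i, rfl⟩
  | one => rw [← one_def, sub_self]; exact Submodule.zero_mem _
  | mul a b _ _ ha hb =>
    have : (single (a * b) (1 : k) - 1 : MonoidAlgebra k H) =
        (single a 1 - 1) * single b 1 + (single b 1 - 1) := by
      simp only [sub_mul, single_mul_single, one_mul, mul_one]
      abel
    rw [this]
    exact Submodule.add_mem _ (mul_right_mem ha _) hb
  | inv a _ ha =>
    have : (single a⁻¹ (1 : k) - 1 : MonoidAlgebra k H) = -((single a 1 - 1) * single a⁻¹ 1) := by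
      simp only [sub_mul, single_mul_single, one_mul, mul_one, mul_inv_cancel, ← one_def]
      abel
    rw [this]
    exact Submodule.neg_mem _ (mul_right_mem ha _)

lemma mem_RI' (hs : Subgroup.closure (Set.range s) = ⊤) (x : MonoidAlgebra k H) (h : H) :
    x * (single h (1 : k) - 1 : MonoidAlgebra k H) ∈ RI (dd k s) := by
  induction x using MonoidAlgebra.induction_linear with
  | zero => rw [zero_mul]; exact Submodule.zero_mem _
  | add a b ha hb => rw [add_mul]; exact Submodule.add_mem _ ha hb
  | single g r =>
    have : single g r * (single h (1 : k) - 1 : MonoidAlgebra k H) =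
        (single (g * h * g⁻¹) 1 - 1) * single g r := by
      rw [mul_sub, sub_mul, single_mul_single, single_mul_single, mul_one, one_mul, one_mul,
        mul_one, inv_mul_cancel_right]
    rw [this]
    exact mul_right_mem (mem_RI s hs _) _

lemma mul_mem_RJ (b : Fin n → MonoidAlgebra k H) (i : Fin n) {x : MonoidAlgebra k H}
    (hx : x ∈ RI b) : b i * x ∈ RJ b := by
  induction hx using Submodule.span_induction with
  | mem x hx =>
    obtain ⟨l, rfl⟩ := hx
    exact Submodule.subset_span ⟨(i, l), rfl⟩
  | zero => rw [mul_zero]; exact Submodule.zero_mem _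
  | add x y _ _ hx hy => rw [mul_add]; exact Submodule.add_mem _ hx hy
  | smul a x _ hx =>
    rw [MulOpposite.smul_eq_mul_unop, ← mul_assoc]
    exact mul_right_mem hx _

lemma prod_mem_RJ (hs : Subgroup.closure (Set.range s) = ⊤) (g h : H) :
    (single g (1 : k) - 1 : MonoidAlgebra k H) * (single h (1 : k) - 1) ∈ RJ (dd k s) := by
  have hg := mem_RI (k := k) s hs g
  have key : ∀ x ∈ RI (dd k s), ∀ y : MonoidAlgebra k H,
      x * (y * (single h (1 : k) - 1)) ∈ RJ (dd k s) := by
    intro x hx
    induction hx using Submodule.span_induction with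
    | mem x hx =>
      obtain ⟨l, rfl⟩ := hx
      intro y
      exact mul_mem_RJ _ _ (mem_RI' s hs _ _)
    | zero => intro y; rw [zero_mul]; exact Submodule.zero_mem _
    | add x z _ _ hx hz => intro y; rw [add_mul]; exact Submodule.add_mem _ (hx y) (hz y)
    | smul a x _ hx =>
      intro y
      rw [MulOpposite.smul_eq_mul_unop, mul_assoc, ← mul_assoc _ y]
      exact hx _
  have := key _ hg 1
  rwa [one_mul] at this

lemma commutator_mem (hs : Subgroup.closure (Set.range s) = ⊤) (g h : H) :
    (single (g * h * g⁻¹ * h⁻¹) (1 : k) - 1 : MonoidAlgebra k H) ∈ RJ (dd k s) := by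
  have : (single (g * h * g⁻¹ * h⁻¹) (1 : k) - 1 : MonoidAlgebra k H) =
      ((single g (1 : k) - 1 : MonoidAlgebra k H) * (single h (1 : k) - 1) -
        (single h (1 : k) - 1 : MonoidAlgebra k H) * (single g (1 : k) - 1)) *
        single (g⁻¹ * h⁻¹) 1 := by
    have h1 : ((single g (1 : k) - 1 : MonoidAlgebra k H) * (single h (1 : k) - 1) -
        (single h (1 : k) - 1 : MonoidAlgebra k H) * (single g (1 : k) - 1)) =
        single (g * h) 1 - single (h * g) 1 := by
      simp only [mul_sub, sub_mul, single_mul_single, mul_one, one_mul]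
      abel
    rw [h1, sub_mul, single_mul_single, single_mul_single, mul_one]
    have h2 : h * g * (g⁻¹ * h⁻¹) = 1 := by group
    rw [h2, ← one_def]
    congr 2
    group
  rw [this]
  exact mul_right_mem (Submodule.sub_mem _ (prod_mem_RJ s hs _ _) (prod_mem_RJ s hs _ _)) _

lemma mem_RJ (hs : Subgroup.closure (Set.range s) = ⊤) (hp : commutator H = ⊤) (h : H) :
    (single h (1 : k) - 1 : MonoidAlgebra k H) ∈ RJ (dd k s) := by
  have hh : h ∈ commutator H := by rw [hp]; trivial
  rw [commutator_eq_closure] at hh
  induction hh using Subgroup.closure_induction with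
  | mem x hx =>
    obtain ⟨a, b, rfl⟩ := hx
    exact commutator_mem s hs a b
  | one => rw [← one_def, sub_self]; exact Submodule.zero_mem _
  | mul a b _ _ ha hb =>
    have : (single (a * b) (1 : k) - 1 : MonoidAlgebra k H) =
        (single a 1 - 1) * single b 1 + (single b 1 - 1) := by
      simp only [sub_mul, single_mul_single, one_mul, mul_one]
      abel
    rw [this]
    exact Submodule.add_mem _ (mul_right_mem ha _) hb
  | inv a _ ha =>
    have : (single a⁻¹ (1 : k) - 1 : MonoidAlgebra k H) = -((single a 1 - 1) * single a⁻¹ 1) := by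
      simp only [sub_mul, single_mul_single, one_mul, mul_one, mul_inv_cancel, ← one_def]
      abel
    rw [this]
    exact Submodule.neg_mem _ (mul_right_mem ha _)

lemma exists_E (hs : Subgroup.closure (Set.range s) = ⊤) (hp : commutator H = ⊤) :
    ∃ E : Fin n → Fin n → Fin n → MonoidAlgebra k H,
      ∀ j, dd k s j = ∑ i, ∑ l, dd k s i * dd k s l * E i l j := by
  have h1 : ∀ j, ∃ c : Fin n × Fin n → (MonoidAlgebra k H)ᵐᵒᵖ,
      ∑ p, c p • (dd k s p.1 * dd k s p.2) = dd k s j := by
    intro j
    have h2 : dd k s j ∈ RJ (dd k s) := mem_RJ s hs hp (s j)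
    exact (Submodule.mem_span_range_iff_exists_fun _).1 h2
  choose c hc using h1
  refine ⟨fun i l j => (c j (i, l)).unop, fun j => ?_⟩
  rw [← hc j, Fintype.sum_prod_type]
  rfl

/-- a nonzero element of the group algebra is not fixed by an element of infinite order -/
lemma eq_zero_of_fixed (x : H) (hx : ¬ IsOfFinOrder x) (r : MonoidAlgebra k H)
    (h : r * (single x (1 : k) - 1) = 0) : r = 0 := by
  rw [mul_sub, mul_one, sub_eq_zero] at h
  by_contra hr
  obtain ⟨g, hg⟩ : ∃ g, r.coeff g ≠ 0 := by
    by_contra hcon
    push Not at hcon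
    apply hr
    ext g
    exact hcon g
  have h1 : ∀ m : ℕ, r.coeff (g * x ^ m) ≠ 0 := by
    intro m
    induction m with
    | zero => simpa using hg
    | succ m ih =>
      intro h2
      apply ih
      rw [← h2]
      conv_rhs => rw [← h]
      rw [pow_succ, ← mul_assoc, coeff_mul_single_mul, mul_one]
  have h2 : Function.Injective (fun m : ℕ => g * x ^ m) := by
    intro a b hab
    exact injective_pow_iff_not_isOfFinOrder.2 hx (mul_left_cancel hab)
  exact Set.infinite_range_of_injective h2
    (Set.Finite.subset r.coeff.support.finite_toSet (by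
      rintro _ ⟨m, rfl⟩
      exact Finsupp.mem_support_iff.2 (h1 m)))

end perfect

end Pool.Agent.W410.Alg
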