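import Mathlib

set_option autoImplicit false

/-!
A perfect torsion-free group with a finitely generated abelian normal subgroup of finite index:
the commutator subgroup of `F / [N, N]`, where `F` is free and `F / N` is the alternating group
of degree 5.
-/

namespace Pool.Agent.W410.Grp

open Subgroup
open scoped commutatorElement

universe u

section tf

lemma fab_tf (X : Type u) (a : FreeAbelianGroup X) (n : ℕ) (hn : n ≠ 0)
    (h : n • a = 0) : a = 0 := by
  let e := FreeAbelianGroup.equivFinsupp X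
  have h1 : n • e a = 0 := by
    rw [← map_nsmul, h, map_zero]
  have h2 : e a = 0 := by
    ext x
    have h3 := DFunLike.congr_fun h1 x
    rw [Finsupp.smul_apply, Finsupp.zero_apply, smul_eq_zero] at h3
    rcases h3 with h3 | h3
    · exact absurd h3 hn
    · exact h3
  rwa [map_eq_zero_iff e e.injective] at h2

lemma abel_tf (X : Type u) (a : Abelianization (FreeGroup X)) (n : ℕ) (hn : n ≠ 0)
    (h : a ^ n = 1) : a = 1 :=
  fab_tf X (Additive.ofMul a) n hn h

lemma comm_tf {F : Type u} [Group F] [IsFreeGroup F] (g : F) (n : ℕ) (hn : n ≠ 0)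
    (h : g ^ n ∈ commutator F) : g ∈ commutator F := by
  let e : F ≃* FreeGroup (IsFreeGroup.Generators F) := IsFreeGroup.toFreeGroup F
  rw [← Abelianization.ker_of, MonoidHom.mem_ker] at h ⊢
  have h1 : (MulEquiv.abelianizationCongr e) (Abelianization.of g) = 1 := by
    apply abel_tf _ _ n hn
    rw [← map_pow, ← map_pow, h, map_one]
  rwa [map_eq_one_iff _ (MulEquiv.abelianizationCongr e).injective] at h1

variable {F : Type u} [Group F]

lemma mem_comm_sub (H : Subgroup F) (x : H) : (x : F) ∈ ⁅H, H⁆ ↔ x ∈ commutator H := by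
  rw [← map_subtype_commutator]
  constructor
  · rintro ⟨y, hy, hxy⟩
    have : y = x := Subtype.ext hxy
    rwa [← this]
  · intro h
    exact ⟨x, h, rfl⟩

lemma sub_tf [IsFreeGroup F] (H : Subgroup F) (g : F) (hg : g ∈ H) (n : ℕ) (hn : n ≠ 0)
    (h : g ^ n ∈ ⁅H, H⁆) : g ∈ ⁅H, H⁆ := by
  have h1 := (mem_comm_sub H ⟨g ^ n, H.pow_mem hg n⟩).1 h
  have h2 : (⟨g, hg⟩ : H) ∈ commutator H := by
    apply comm_tf _ n hn
    exact h1
  exact (mem_comm_sub H ⟨g, hg⟩).2 h2

theorem quot_tf [IsFreeGroup F] (N : Subgroup F) [N.Normal] (g : F) (n : ℕ) (hn : n ≠ 0)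
    (h : g ^ n ∈ ⁅N, N⁆) : g ∈ ⁅N, N⁆ := by
  have hgN : g ∈ N := by
    let S : Subgroup F := N ⊔ zpowers g
    have h1 : ⁅S, S⁆ ≤ N := by
      rw [commutator_le]
      intro x hx y hy
      rw [mem_sup_of_normal_left] at hx hy
      obtain ⟨a, ha, c, ⟨i, rfl⟩, rfl⟩ := hx
      obtain ⟨b, hb, d, ⟨j, rfl⟩, rfl⟩ := hy
      rw [← QuotientGroup.eq_one_iff, commutatorElement_def]
      have ha' : (a : F ⧸ N) = 1 := (QuotientGroup.eq_one_iff a).2 ha
      have hb' : (b : F ⧸ N) = 1 := (QuotientGroup.eq_one_iff b).2 hb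
      simp only [QuotientGroup.mk_mul, QuotientGroup.mk_inv, ha', hb', one_mul]
      rw [← QuotientGroup.mk_mul, (Commute.zpow_zpow (Commute.refl g) i j).eq,
        QuotientGroup.mk_mul, mul_inv_cancel_right, mul_inv_cancel]
    have h2 : g ∈ S := mem_sup_right (mem_zpowers g)
    apply h1
    apply sub_tf S g h2 n hn
    exact commutator_mono le_sup_left le_sup_left h
  exact sub_tf N g hgN n hn h

end tf

section perfect

variable {G : Type u} [Group G]

/-- If `G` is the product of its commutator subgroup and an abelian normal subgroup, the commutator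
subgroup is perfect. -/
theorem perfect_of (L : Subgroup G) [L.Normal] (hL : ⁅L, L⁆ = ⊥) (hGL : commutator G ⊔ L = ⊤) :
    ⁅commutator G, commutator G⁆ = commutator G := by
  apply le_antisymm (commutator_le_self _)
  let K : Subgroup G := ⁅commutator G, commutator G⁆
  -- work in `Q = G / K`
  let f : G →* G ⧸ K := QuotientGroup.mk' K
  have hf : Function.Surjective f := QuotientGroup.mk'_surjective K
  let A : Subgroup (G ⧸ K) := (commutator G).map f
  let B : Subgroup (G ⧸ K) := L.map f
  have hAn : A.Normal := Subgroup.Normal.map inferInstance f hf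
  have hBn : B.Normal := Subgroup.Normal.map inferInstance f hf
  have hA : ∀ x ∈ A, ∀ y ∈ A, x * y = y * x := by
    rintro _ ⟨x, hx, rfl⟩ _ ⟨y, hy, rfl⟩
    have h1 : f ⁅x, y⁆ = 1 := (QuotientGroup.eq_one_iff _).2 (commutator_mem_commutator hx hy)
    rw [map_commutatorElement, commutatorElement_eq_one_iff_mul_comm] at h1
    exact h1
  have hB : ∀ x ∈ B, ∀ y ∈ B, x * y = y * x := by
    rintro _ ⟨x, hx, rfl⟩ _ ⟨y, hy, rfl⟩
    have h1 : ⁅x, y⁆ ∈ ⁅L, L⁆ := commutator_mem_commutator hx hy
    rw [hL, mem_bot, commutatorElement_eq_one_iff_mul_comm] at h1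
    rw [← map_mul, h1, map_mul]
  have hAB : ∀ x : G ⧸ K, ∃ a ∈ A, ∃ b ∈ B, a * b = x := by
    intro x
    obtain ⟨g, rfl⟩ := hf x
    have h1 : g ∈ commutator G ⊔ L := by rw [hGL]; trivial
    rw [mem_sup_of_normal_right] at h1
    obtain ⟨a, ha, b, hb, rfl⟩ := h1
    exact ⟨f a, ⟨a, ha, rfl⟩, f b, ⟨b, hb, rfl⟩, (map_mul f a b).symm⟩
  -- the intersection is central
  have hcen : ∀ x ∈ A, x ∈ B → x ∈ center (G ⧸ K) := by
    intro x hxA hxB
    rw [mem_center_iff]
    intro y
    obtain ⟨a, ha, b, hb, rfl⟩ := hAB y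
    rw [mul_assoc, hB b hb x hxB, ← mul_assoc, hA a ha x hxA, mul_assoc]
  -- the commutator subgroup is central
  have hcomm : ∀ x y : G ⧸ K, ⁅x, y⁆ ∈ center (G ⧸ K) := by
    intro x y
    obtain ⟨a, ha, l, hl, rfl⟩ := hAB x
    obtain ⟨b, hb, m, hm, rfl⟩ := hAB y
    have hz : ∀ a ∈ A, ∀ l ∈ B, ⁅a, l⁆ ∈ center (G ⧸ K) := by
      intro a ha l hl
      apply hcen
      · exact commutator_le_left A B (commutator_mem_commutator ha hl)
      · exact commutator_le_right A B (commutator_mem_commutator ha hl)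
    let Z := center (G ⧸ K)
    rw [← QuotientGroup.eq_one_iff, commutatorElement_def]
    have c1 : (a : (G ⧸ K) ⧸ Z) * b = b * a := by
      rw [← QuotientGroup.mk_mul, hA a ha b hb, QuotientGroup.mk_mul]
    have c2 : (l : (G ⧸ K) ⧸ Z) * m = m * l := by
      rw [← QuotientGroup.mk_mul, hB l hl m hm, QuotientGroup.mk_mul]
    have key : ∀ a ∈ A, ∀ l ∈ B, (a : (G ⧸ K) ⧸ Z) * l = l * a := by
      intro a ha l hl
      have h1 := (QuotientGroup.eq_one_iff (N := Z) ⁅a, l⁆).2 (hz a ha l hl)
      rw [commutatorElement_def] at h1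
      simp only [QuotientGroup.mk_mul, QuotientGroup.mk_inv] at h1
      rw [mul_inv_eq_one, mul_inv_eq_iff_eq_mul] at h1
      exact h1
    have c3 := key a ha m hm
    have c4 := key b hb l hl
    simp only [QuotientGroup.mk_mul, QuotientGroup.mk_inv]
    have h5 : ((a : (G ⧸ K) ⧸ Z) * l) * (b * m) = (b * m) * (a * l) := by
      calc ((a : (G ⧸ K) ⧸ Z) * l) * (b * m) = a * (l * b) * m := by group
        _ = a * (b * l) * m := by rw [c4]
        _ = (a * b) * (l * m) := by group
        _ = (b * a) * (m * l) := by rw [c1, c2]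
        _ = b * (a * m) * l := by group
        _ = b * (m * a) * l := by rw [c3]
        _ = (b * m) * (a * l) := by group
    rw [h5, mul_inv_cancel_right, mul_inv_cancel]
  have hAZ : A ≤ center (G ⧸ K) := by
    have h1 : ⁅(⊤ : Subgroup G), ⊤⁆ ≤ (center (G ⧸ K)).comap f := by
      rw [commutator_le]
      intro x _ y _
      rw [mem_comap, map_commutatorElement]
      exact hcomm _ _
    exact Subgroup.map_le_iff_le_comap.2 h1
  have hall : ∀ x y : G ⧸ K, x * y = y * x := by
    intro x y
    obtain ⟨a, ha, l, hl, rfl⟩ := hAB x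
    obtain ⟨b, hb, m, hm, rfl⟩ := hAB y
    have ca := mem_center_iff.1 (hAZ ha)
    have cb := mem_center_iff.1 (hAZ hb)
    have clm := hB l hl m hm
    calc a * l * (b * m) = a * (l * b) * m := by group
      _ = a * (b * l) * m := by rw [cb l]
      _ = (a * b) * (l * m) := by group
      _ = (b * a) * (m * l) := by rw [← ca b, clm]
      _ = b * (a * m) * l := by group
      _ = b * (m * a) * l := by rw [← ca m]
      _ = b * m * (a * l) := by group
  have hK : ⁅(⊤ : Subgroup G), ⊤⁆ ≤ K → commutator G ≤ K := fun h => h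
  apply hK
  rw [commutator_le]
  intro x _ y _
  rw [← QuotientGroup.eq_one_iff, commutatorElement_def]
  simp only [QuotientGroup.mk_mul, QuotientGroup.mk_inv]
  rw [hall x y]
  group

end perfect

end Pool.Agent.W410.Grp
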