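import Mathlib

set_option autoImplicit false

/-! Polycyclic and polycyclic-by-finite groups. -/

namespace Pool.Agent.W410

universe u

/-- A group is polycyclic if it has a subnormal series `1 = S 0 ⊴ S 1 ⊴ ... ⊴ S n = G` in which
every factor `S (i + 1) / S i` is cyclic. -/
def IsPolycyclic (G : Type u) [Group G] : Prop :=
  ∃ (n : ℕ) (S : ℕ → Subgroup G), S 0 = ⊥ ∧ S n = ⊤ ∧ ∀ i, i < n →
    S i ≤ S (i + 1) ∧ ∃ _ : ((S i).subgroupOf (S (i + 1))).Normal,
      IsCyclic (S (i + 1) ⧸ (S i).subgroupOf (S (i + 1)))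

/-- A group is polycyclic-by-finite if it has a polycyclic normal subgroup of finite index. -/
def IsPolycyclicByFinite (G : Type u) [Group G] : Prop :=
  ∃ N : Subgroup G, N.Normal ∧ N.FiniteIndex ∧ IsPolycyclic N

end Pool.Agent.W410
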