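import Mathlib
import Pool.Agent.W410.Grp
import Pool.Agent.W410.PolyDef

set_option autoImplicit false

namespace Pool.Agent.W410.Grp

open Subgroup
open scoped commutatorElement

universe u

section fg

lemma fg_sub {A : Type u} [CommGroup A] [Group.FG A] (K : Subgroup A) : K.FG := by
  have h1 : Module.Finite ℤ (Additive A) := by
    rw [Module.Finite.iff_addGroup_fg]
    infer_instance
  have h2 : IsNoetherian ℤ (Additive A) := inferInstance
  have h3 := h2.noetherian (AddSubgroup.toIntSubmodule (Subgroup.toAddSubgroup K))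
  rw [Submodule.fg_iff_addSubgroup_fg] at h3
  rw [Subgroup.fg_iff_add_fg]
  exact h3

lemma fg_of_finiteIndex {H : Type u} [Group H] (N : Subgroup H) [N.FiniteIndex] [Group.FG N] :
    Group.FG H := by
  have h1 : N.FG := (Group.fg_iff_subgroup_fg N).1 inferInstance
  obtain ⟨S, hS⟩ := h1
  rw [Group.fg_iff]
  refine ⟨(S : Set H) ∪ Set.range (fun q : H ⧸ N => q.out), ?_,
    S.finite_toSet.union (Set.finite_range _)⟩
  rw [eq_top_iff]
  intro x _
  obtain ⟨m, hm⟩ := QuotientGroup.mk_out_eq_mul N x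
  have h2 : x = (x : H ⧸ N).out * (m : H)⁻¹ := by rw [hm, mul_inv_cancel_right]
  rw [h2]
  refine mul_mem (subset_closure (Or.inr ⟨_, rfl⟩)) (inv_mem ?_)
  have h3 : (m : H) ∈ closure (S : Set H) := by rw [hS]; exact m.2
  exact closure_mono Set.subset_union_left h3

lemma polycyclic_of_fg (A : Type u) [CommGroup A] [Group.FG A] : IsPolycyclic A := by
  obtain ⟨S, hS⟩ := (Group.fg_def (G := A)).1 inferInstance
  let n := S.card
  let e : S ≃ Fin n := S.equivFin
  let s : Fin n → A := fun i => (e.symm i : A)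
  have hs : Subgroup.closure (Set.range s) = ⊤ := by
    have hS2 : Set.range s = (S : Set A) := by
      ext x
      constructor
      · rintro ⟨i, rfl⟩
        exact (e.symm i).2
      · intro hx
        exact ⟨e ⟨x, hx⟩, by simp [s]⟩
    rw [hS2, hS]
  let T : ℕ → Set A := fun i => {x | ∃ j : Fin n, j.val < i ∧ s j = x}
  refine ⟨n, fun i => closure (T i), ?_, ?_, ?_⟩
  · have : T 0 = ∅ := by
      ext x
      simp [T]
    change closure (T 0) = ⊥
    rw [this, Subgroup.closure_empty]
  · have : T n = Set.range s := by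
      ext x
      constructor
      · rintro ⟨j, _, rfl⟩
        exact ⟨j, rfl⟩
      · rintro ⟨j, rfl⟩
        exact ⟨j, j.2, rfl⟩
    change closure (T n) = ⊤
    rw [this, hs]
  · intro i hi
    have hmono : T i ⊆ T (i + 1) := by
      rintro x ⟨j, hj, rfl⟩
      exact ⟨j, Nat.lt_succ_of_lt hj, rfl⟩
    refine ⟨closure_mono hmono, inferInstance, ?_⟩
    let x0 : A := s ⟨i, hi⟩
    have hx0 : x0 ∈ closure (T (i + 1)) := subset_closure ⟨⟨i, hi⟩, Nat.lt_succ_self i, rfl⟩
    have hT : T (i + 1) = T i ∪ {x0} := by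
      ext x
      constructor
      · rintro ⟨j, hj, rfl⟩
        rcases Nat.lt_succ_iff_lt_or_eq.1 hj with hj | hj
        · exact Or.inl ⟨j, hj, rfl⟩
        · right
          have : j = ⟨i, hi⟩ := Fin.ext hj
          rw [this]
          rfl
      · rintro (⟨j, hj, rfl⟩ | hx)
        · exact ⟨j, Nat.lt_succ_of_lt hj, rfl⟩
        · rw [Set.mem_singleton_iff] at hx
          exact ⟨⟨i, hi⟩, Nat.lt_succ_self i, hx.symm⟩
    refine ⟨⟨QuotientGroup.mk ⟨x0, hx0⟩, ?_⟩⟩
    intro q
    obtain ⟨⟨y, hy⟩, rfl⟩ := QuotientGroup.mk_surjective q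
    have hy' : y ∈ closure (T i) ⊔ closure {x0} := by
      rw [← Subgroup.closure_union, ← hT]
      exact hy
    rw [mem_sup] at hy'
    obtain ⟨a, ha, b, hb, hab⟩ := hy'
    rw [mem_closure_singleton] at hb
    obtain ⟨m, rfl⟩ := hb
    refine ⟨m, ?_⟩
    change (QuotientGroup.mk ⟨x0, hx0⟩ : _ ⧸ (closure (T i)).subgroupOf (closure (T (i + 1)))) ^ m = _
    rw [← QuotientGroup.mk_zpow]
    rw [QuotientGroup.eq, mem_subgroupOf]
    have : ((⟨x0, hx0⟩ ^ m)⁻¹ * ⟨y, hy⟩ : closure (T (i + 1))).1 = a := by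
      change (x0 ^ m)⁻¹ * y = a
      rw [← hab]
      rw [mul_comm a, inv_mul_cancel_left]
    rw [this]
    exact ha

end fg

section alt

/-- the alternating group of degree five -/
abbrev Al : Type := alternatingGroup (Fin 5)

lemma al_perfect : commutator Al = ⊤ := by
  have h := (IsSimpleGroup.eq_bot_or_eq_top_of_normal (commutator Al) inferInstance)
  rcases h with h | h
  · exfalso
    have h1 : (center Al) = ⊤ := by
      rw [eq_top_iff]
      have h2 := (commutator_top_right_eq_bot_iff_le_center (H := (⊤ : Subgroup Al))).1 h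
      exact h2
    have h3 : center Al = ⊥ := alternatingGroup.center_eq_bot (α := Fin 5) (by simp)
    rw [h3] at h1
    exact bot_ne_top h1
  · exact h

/-- the free group -/
abbrev Fr : Type := FreeGroup Al

/-- the projection -/
def pr : Fr →* Al := FreeGroup.lift id

lemma pr_surj : Function.Surjective pr := fun x => ⟨FreeGroup.of x, by simp [pr]⟩

/-- the kernel -/
def N0 : Subgroup Fr := pr.ker

instance : N0.Normal := inferInstanceAs pr.ker.Normal

instance : N0.FiniteIndex := inferInstanceAs pr.ker.FiniteIndex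

/-- the torsion-free quotient -/
abbrev G0 : Type := Fr ⧸ ⁅N0, N0⁆

/-- the quotient map -/
def q0 : Fr →* G0 := QuotientGroup.mk' ⁅N0, N0⁆

lemma q0_surj : Function.Surjective q0 := QuotientGroup.mk'_surjective _

lemma G0_tf (g : G0) (n : ℕ) (hn : n ≠ 0) (h : g ^ n = 1) : g = 1 := by
  obtain ⟨x, rfl⟩ := q0_surj g
  rw [← map_pow] at h
  exact (QuotientGroup.eq_one_iff _).2 (quot_tf N0 x n hn ((QuotientGroup.eq_one_iff _).1 h))

/-- the abelian normal subgroup -/
def L0 : Subgroup G0 := N0.map q0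

instance : L0.Normal := Subgroup.Normal.map inferInstance q0 q0_surj

instance : L0.FiniteIndex := by
  refine ⟨fun h => ?_⟩
  have h1 : L0.index ∣ N0.index := Subgroup.index_map_dvd N0 q0_surj
  rw [h, zero_dvd_iff] at h1
  exact (inferInstance : N0.FiniteIndex).index_ne_zero h1

lemma L0_comm : ⁅L0, L0⁆ = ⊥ := by
  change ⁅N0.map q0, N0.map q0⁆ = ⊥
  rw [← map_commutator, eq_bot_iff]
  rintro _ ⟨x, hx, rfl⟩
  exact (QuotientGroup.eq_one_iff _).2 hx

instance : Group.FG N0 := Subgroup.fg_of_index_ne_zero N0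

instance : Group.FG L0 :=
  Group.fg_of_surjective (f := q0.subgroupMap N0) (q0.subgroupMap_surjective N0)

lemma comm_sup : commutator G0 ⊔ L0 = ⊤ := by
  rw [eq_top_iff]
  intro g _
  obtain ⟨x, rfl⟩ := q0_surj g
  have h1 : (commutator Fr).map pr = commutator Al := by
    change Subgroup.map pr ⁅(⊤ : Subgroup Fr), (⊤ : Subgroup Fr)⁆ = ⁅(⊤ : Subgroup Al), (⊤ : Subgroup Al)⁆
    rw [map_commutator, Subgroup.map_top_of_surjective pr pr_surj]
  have h2 : pr x ∈ (commutator Fr).map pr := by
    rw [h1, al_perfect]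
    trivial
  obtain ⟨c, hc, hcx⟩ := h2
  have h3 : c⁻¹ * x ∈ N0 := by
    change pr (c⁻¹ * x) = 1
    rw [map_mul, map_inv, hcx, inv_mul_cancel]
  have h4 : q0 x = q0 c * q0 (c⁻¹ * x) := by
    rw [← map_mul, mul_inv_cancel_left]
  rw [h4]
  refine mul_mem_sup ?_ ⟨_, h3, rfl⟩
  have h5 : (commutator Fr).map q0 ≤ commutator G0 := by
    change Subgroup.map q0 ⁅(⊤ : Subgroup Fr), (⊤ : Subgroup Fr)⁆ ≤ ⁅(⊤ : Subgroup G0), (⊤ : Subgroup G0)⁆
    rw [map_commutator]
    exact commutator_mono le_top le_top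
  exact h5 ⟨c, hc, rfl⟩

/-- the perfect torsion-free group -/
abbrev H0 : Type := commutator G0

lemma H0_perfect : commutator H0 = ⊤ := by
  have h := perfect_of L0 L0_comm comm_sup
  rw [← Subgroup.isPerfect_iff] at h
  exact h.commutator_eq_top

lemma H0_tf (g : H0) (hg : g ≠ 1) : ¬ IsOfFinOrder g := by
  rw [isOfFinOrder_iff_pow_eq_one]
  rintro ⟨n, hn, h⟩
  apply hg
  apply Subtype.ext
  apply G0_tf _ n hn.ne'
  have h2 := congrArg Subtype.val h
  simpa using h2

lemma H0_nontrivial : ∃ h : H0, h ≠ 1 := by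
  by_contra hcon
  push Not at hcon
  have h1 : commutator G0 = ⊥ := by
    rw [eq_bot_iff]
    intro x hx
    exact congrArg Subtype.val (hcon ⟨x, hx⟩)
  have h2 : commutator Fr ≤ N0 := by
    intro x hx
    have h3 : q0 x ∈ commutator G0 := by
      have h5 : (commutator Fr).map q0 ≤ commutator G0 := by
        change Subgroup.map q0 ⁅(⊤ : Subgroup Fr), (⊤ : Subgroup Fr)⁆ ≤ ⁅(⊤ : Subgroup G0), (⊤ : Subgroup G0)⁆
        rw [map_commutator]
        exact commutator_mono le_top le_top
      exact h5 ⟨x, hx, rfl⟩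
    rw [h1, mem_bot] at h3
    exact commutator_le_self N0 ((QuotientGroup.eq_one_iff _).1 h3)
  have h3 : commutator Al = ⊥ := by
    have h4 : (commutator Fr).map pr = commutator Al := by
      change Subgroup.map pr ⁅(⊤ : Subgroup Fr), (⊤ : Subgroup Fr)⁆ = ⁅(⊤ : Subgroup Al), (⊤ : Subgroup Al)⁆
      rw [map_commutator, Subgroup.map_top_of_surjective pr pr_surj]
    rw [← h4, eq_bot_iff]
    rintro _ ⟨x, hx, rfl⟩
    exact h2 hx
  rw [al_perfect] at h3
  exact top_ne_bot h3

/-- the abelian normal subgroup of `H0` -/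
def N1 : Subgroup H0 := L0.subgroupOf (commutator G0)

instance : N1.Normal := inferInstanceAs (L0.subgroupOf (commutator G0)).Normal

instance : N1.FiniteIndex := inferInstanceAs (L0.subgroupOf (commutator G0)).FiniteIndex

lemma L0_comm' (a b : L0) : a * b = b * a := by
  have h : ⁅(a : G0), (b : G0)⁆ ∈ ⁅L0, L0⁆ := commutator_mem_commutator a.2 b.2
  rw [L0_comm, mem_bot, commutatorElement_eq_one_iff_mul_comm] at h
  exact Subtype.ext h

lemma N1_comm (a b : N1) : a * b = b * a := by
  have h := L0_comm' ⟨_, a.2⟩ ⟨_, b.2⟩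
  have h2 := congrArg Subtype.val h
  exact Subtype.ext (Subtype.ext h2)

instance : Group.FG N1 := by
  let _ : CommGroup L0 := { (inferInstance : Group L0) with mul_comm := L0_comm' }
  have h1 : ((commutator G0).subgroupOf L0).FG := fg_sub _
  have h2 : Group.FG ((commutator G0).subgroupOf L0) := (Group.fg_iff_subgroup_fg _).2 h1
  let f : ((commutator G0).subgroupOf L0) →* N1 :=
    { toFun := fun x => ⟨⟨x.1.1, x.2⟩, x.1.2⟩
      map_one' := rfl
      map_mul' := fun _ _ => rfl }
  exact Group.fg_of_surjective (f := f) (fun y => ⟨⟨⟨y.1.1, y.2⟩, y.1.2⟩, rfl⟩)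

lemma H0_pbf : IsPolycyclicByFinite H0 := by
  let _ : CommGroup N1 := { (inferInstance : Group N1) with mul_comm := N1_comm }
  exact ⟨N1, inferInstance, inferInstance, polycyclic_of_fg N1⟩

instance : Group.FG H0 := fg_of_finiteIndex N1

end alt

end Pool.Agent.W410.Grp
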