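import Mathlib
import Pool.Agent.W25.UN.Stm2
import Pool.Agent.H732R2.MT_T2b

/-! Project UN (helper25), part (EQ): primes `a y + b` weighted by a tent in a residue class. -/

set_option autoImplicit false

namespace Pool.Agent.W410.UNEQ

open Finset Filter Topology
open Pool.Agent.H410R2 (psiLogAP psiLog1)
open Pool.Agent.W25.UN (Est Mt Dev Tents Eq2 tn)

lemma psiLogAP_congr (X : ℝ) (M r s : ℕ) (h : r ≡ s [MOD M]) :
    psiLogAP X M r = psiLogAP X M s := by
  unfold psiLogAP
  congr 1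
  apply filter_congr
  intro n _
  exact ⟨fun h1 => h1.trans h, fun h1 => h1.trans h.symm⟩

lemma Est_nonneg (X : ℝ) (M : ℕ) : 0 ≤ Est X M := by
  unfold Est
  have h0 : (0 : ℕ) ∈ range (M + 1) := by simp
  refine le_trans ?_ (le_sup' (fun r => if r.Coprime M then
    |psiLogAP X M r - psiLog1 X / (Nat.totient M : ℝ)| else 0) h0)
  split_ifs
  · exact abs_nonneg _
  · exact le_rfl

lemma le_Est (X : ℝ) (M r : ℕ) (hM : 1 ≤ M) (hr : r.Coprime M) :
    |psiLogAP X M r - psiLog1 X / (Nat.totient M : ℝ)| ≤ Est X M := by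
  have h0 : r % M ∈ range (M + 1) := by
    have := Nat.mod_lt r (by omega : M > 0)
    simp
    omega
  have hc : (r % M).Coprime M := by
    have : Nat.gcd (r % M) M = 1 := by
      rw [← Nat.gcd_rec, Nat.gcd_comm]; exact hr
    exact this
  have h1 := le_sup' (fun r => if r.Coprime M then
    |psiLogAP X M r - psiLog1 X / (Nat.totient M : ℝ)| else 0) h0
  unfold Est
  refine le_trans ?_ h1
  simp only [if_pos hc]
  rw [psiLogAP_congr X M (r % M) r (Nat.mod_modEq r M)]

lemma key (a b m r X : ℕ) (x : ℝ) (ha : 1 ≤ a) (hb : 1 ≤ b) (hm : 1 ≤ m) (hx : 1 ≤ x)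
    (hxX : x ≤ X) (hcop : (a * r + b).Coprime (a * m))
    (htot : Nat.totient (a * m) = a * Nat.totient m) :
    |∑ y ∈ (Icc 1 X).filter (fun y => y ≡ r [MOD m]),
        ArithmeticFunction.vonMangoldt (a * y + b) *
          max 0 (Real.log (a * x / ((a * y + b : ℕ) : ℝ))) -
      psiLog1 (a * x) / ((a : ℝ) * (Nat.totient m : ℝ))| ≤
      Est (a * x) (a * m) + ((a : ℝ) + b) ^ 2 * (Real.log (a * x) + 1) := by
  have haR : (1 : ℝ) ≤ a := by exact_mod_cast ha
  have hbR : (1 : ℝ) ≤ b := by exact_mod_cast hb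
  have h1 := Pool.Agent.H732R2.T2.ap_approx a b m r ha x hx
  have h2 := le_Est (a * x) (a * m) (a * r + b) (Nat.mul_pos ha hm) hcop
  rw [htot] at h2
  push_cast at h2
  have h3 : ∑ y ∈ (Icc 1 X).filter (fun y => y ≡ r [MOD m]),
        ArithmeticFunction.vonMangoldt (a * y + b) *
          max 0 (Real.log (a * x / ((a * y + b : ℕ) : ℝ))) =
      ∑ n ∈ (Icc 1 ⌊x⌋₊).filter (fun n => n ≡ r [MOD m] ∧ ((a * n + b : ℕ) : ℝ) ≤ a * x),
        ArithmeticFunction.vonMangoldt (a * n + b) *
          Real.log (a * x / ((a * n + b : ℕ) : ℝ)) := by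
    symm
    have hsub : (Icc 1 ⌊x⌋₊).filter
        (fun n => n ≡ r [MOD m] ∧ ((a * n + b : ℕ) : ℝ) ≤ a * x) ⊆
        (Icc 1 X).filter (fun y => y ≡ r [MOD m]) := by
      intro n hn
      rw [mem_filter, mem_Icc] at hn ⊢
      refine ⟨⟨hn.1.1, ?_⟩, hn.2.1⟩
      have h4 : (n : ℝ) ≤ x := (Nat.le_floor_iff (by linarith)).1 hn.1.2
      exact_mod_cast h4.trans hxX
    rw [← sum_subset hsub]
    · apply sum_congr rfl
      intro n hn
      rw [mem_filter, mem_Icc] at hn
      have h5 : (0 : ℝ) < ((a * n + b : ℕ) : ℝ) := by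
        have : 0 < a * n + b := by omega
        exact_mod_cast this
      rw [max_eq_right]
      apply Real.log_nonneg
      rw [le_div_iff₀ h5]
      linarith [hn.2.2]
    · intro n hn hn'
      rw [mem_filter, mem_Icc] at hn
      have h5 : (0 : ℝ) < ((a * n + b : ℕ) : ℝ) := by
        have : 0 < a * n + b := by omega
        exact_mod_cast this
      have h6 : ¬ ((a * n + b : ℕ) : ℝ) ≤ a * x := by
        intro h6
        apply hn'
        rw [mem_filter, mem_Icc]
        refine ⟨⟨hn.1.1, ?_⟩, hn.2, h6⟩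
        apply Nat.le_floor
        have h7 : (a : ℝ) * n + b ≤ a * x := by
          have := h6
          push_cast at this
          exact this
        have h8 : (a : ℝ) * n ≤ a * x := by linarith
        exact le_of_mul_le_mul_left h8 (by linarith)
      push Not at h6
      rw [max_eq_left, mul_zero]
      apply Real.log_nonpos
      · apply div_nonneg _ h5.le
        nlinarith
      · rw [div_le_one h5]
        exact h6.le
  rw [h3]
  have h4 := abs_le.1 h1
  have h5 := abs_le.1 h2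
  rw [abs_le]
  constructor <;> linarith [h4.1, h4.2, h5.1, h5.2]

theorem main (h : Tents) : Eq2 := by
  intro a b W x0 κ X ha hb hW hpa hκ hx0 hX
  have haR : (1 : ℝ) ≤ a := by exact_mod_cast ha
  have hbR : (1 : ℝ) ≤ b := by exact_mod_cast hb
  have hek : 0 < Real.exp (-κ) := Real.exp_pos _
  have hek2 : 0 < Real.exp κ := Real.exp_pos _
  have hx0pos : 0 < x0 := by
    by_contra hc
    push Not at hc
    have : x0 * Real.exp (-κ) ≤ 0 := mul_nonpos_of_nonpos_of_nonneg hc hek.le
    linarith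
  have he1 : Real.exp (-κ) ≤ 1 := Real.exp_le_one_iff.2 (by linarith)
  have he2 : 1 ≤ Real.exp κ := Real.one_le_exp hκ.le
  have hx1 : x0 * Real.exp (-κ) ≤ x0 := by nlinarith
  have hx2 : x0 ≤ x0 * Real.exp κ := by nlinarith
  have hx0' : 1 ≤ x0 := hx0.trans hx1
  have hx0'' : 1 ≤ x0 * Real.exp κ := hx0'.trans hx2
  have hl3 : 0 ≤ Real.log (a * (x0 * Real.exp κ)) := Real.log_nonneg (by nlinarith)
  have hl2 : Real.log (a * x0) ≤ Real.log (a * (x0 * Real.exp κ)) :=
    Real.log_le_log (by positivity) (by nlinarith)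
  have hl1 : Real.log (a * (x0 * Real.exp (-κ))) ≤ Real.log (a * (x0 * Real.exp κ)) :=
    Real.log_le_log (by positivity) (by nlinarith)
  constructor
  · intro m
    unfold Dev
    have h1 := Est_nonneg (a * (x0 * Real.exp κ)) (a * m)
    have h2 := Est_nonneg (a * x0) (a * m)
    have h3 := Est_nonneg (a * (x0 * Real.exp (-κ))) (a * m)
    have h4 : 0 ≤ ((a : ℝ) + b) ^ 2 * (Real.log (a * (x0 * Real.exp κ)) + 1) :=
      mul_nonneg (sq_nonneg _) (by linarith)
    apply mul_nonneg (by positivity)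
    linarith
  · intro m r hWm hm hcop
    have hpm : ∀ p : ℕ, p.Prime → p ∣ a → p ∣ m := fun p hp hpa' => (hpa p hp hpa').trans hWm
    have htot := Pool.Agent.H732R2.T2.totient_mul_of_primes a m ha hm hpm
    have hcop2 : (a * r + b).Coprime (a * m) := by
      apply Nat.Coprime.mul_right _ hcop
      apply Nat.Coprime.symm
      rw [Nat.coprime_iff_gcd_eq_one]
      by_contra hg
      obtain ⟨p, hp, hpd⟩ := Nat.exists_prime_and_dvd hg
      have h1 : p ∣ a := hpd.trans (Nat.gcd_dvd_left _ _)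
      have h2 : p ∣ a * r + b := hpd.trans (Nat.gcd_dvd_right _ _)
      have h3 : p ∣ m := hpm p hp h1
      have h4 : p ∣ Nat.gcd (a * r + b) m := Nat.dvd_gcd h2 h3
      rw [hcop] at h4
      exact hp.one_lt.ne' (Nat.dvd_one.1 h4)
    have hφ : (0 : ℝ) < (Nat.totient m : ℝ) := by
      exact_mod_cast Nat.totient_pos.2 (by omega)
    have k1 := key a b m r X (x0 * Real.exp κ) ha hb hm hx0'' hX hcop2 htot
    have k2 := key a b m r X x0 ha hb hm hx0' (hx2.trans hX) hcop2 htot
    have k3 := key a b m r X (x0 * Real.exp (-κ)) ha hb hm hx0 ((hx1.trans hx2).trans hX)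
      hcop2 htot
    have hsum : ∑ y ∈ (Icc 1 X).filter (fun y => y ≡ r [MOD m]),
        tn x0 κ (((a * y + b : ℕ) : ℝ) / a) * ArithmeticFunction.vonMangoldt (a * y + b) =
        1 / κ * ((∑ y ∈ (Icc 1 X).filter (fun y => y ≡ r [MOD m]),
          ArithmeticFunction.vonMangoldt (a * y + b) *
            max 0 (Real.log (a * (x0 * Real.exp κ) / ((a * y + b : ℕ) : ℝ)))) -
          2 * (∑ y ∈ (Icc 1 X).filter (fun y => y ≡ r [MOD m]),
          ArithmeticFunction.vonMangoldt (a * y + b) *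
            max 0 (Real.log (a * x0 / ((a * y + b : ℕ) : ℝ)))) +
          ∑ y ∈ (Icc 1 X).filter (fun y => y ≡ r [MOD m]),
          ArithmeticFunction.vonMangoldt (a * y + b) *
            max 0 (Real.log (a * (x0 * Real.exp (-κ)) / ((a * y + b : ℕ) : ℝ)))) := by
      rw [mul_sum, ← sum_sub_distrib, ← sum_add_distrib, mul_sum]
      apply sum_congr rfl
      intro y _
      have h5 : (0 : ℝ) < ((a * y + b : ℕ) : ℝ) := by
        have : 0 < a * y + b := by omega
        exact_mod_cast this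
      rw [h.1 x0 κ (((a * y + b : ℕ) : ℝ) / a) hx0pos hκ (by positivity)]
      have e1 : ∀ z : ℝ, z / (((a * y + b : ℕ) : ℝ) / a) = a * z / ((a * y + b : ℕ) : ℝ) := by
        intro z
        field_simp
      rw [e1, e1, e1]
      ring
    rw [hsum]
    set S1 := ∑ y ∈ (Icc 1 X).filter (fun y => y ≡ r [MOD m]),
          ArithmeticFunction.vonMangoldt (a * y + b) *
            max 0 (Real.log (a * (x0 * Real.exp κ) / ((a * y + b : ℕ) : ℝ))) with hS1
    set S2 := ∑ y ∈ (Icc 1 X).filter (fun y => y ≡ r [MOD m]),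
          ArithmeticFunction.vonMangoldt (a * y + b) *
            max 0 (Real.log (a * x0 / ((a * y + b : ℕ) : ℝ))) with hS2
    set S3 := ∑ y ∈ (Icc 1 X).filter (fun y => y ≡ r [MOD m]),
          ArithmeticFunction.vonMangoldt (a * y + b) *
            max 0 (Real.log (a * (x0 * Real.exp (-κ)) / ((a * y + b : ℕ) : ℝ))) with hS3
    have hM : Mt a x0 κ / (Nat.totient m : ℝ) =
        1 / κ * (psiLog1 (a * (x0 * Real.exp κ)) / ((a : ℝ) * (Nat.totient m : ℝ)) -
          2 * (psiLog1 (a * x0) / ((a : ℝ) * (Nat.totient m : ℝ))) +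
          psiLog1 (a * (x0 * Real.exp (-κ))) / ((a : ℝ) * (Nat.totient m : ℝ))) := by
      unfold Mt
      field_simp
    rw [hM, ← mul_sub, abs_mul, abs_of_nonneg (by positivity : 0 ≤ 1 / κ)]
    unfold Dev
    apply mul_le_mul_of_nonneg_left _ (by positivity : 0 ≤ 1 / κ)
    have c2 : ((a : ℝ) + b) ^ 2 * (Real.log (a * x0) + 1) ≤
        ((a : ℝ) + b) ^ 2 * (Real.log (a * (x0 * Real.exp κ)) + 1) :=
      mul_le_mul_of_nonneg_left (by linarith) (sq_nonneg _)
    have c1 : ((a : ℝ) + b) ^ 2 * (Real.log (a * (x0 * Real.exp (-κ))) + 1) ≤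
        ((a : ℝ) + b) ^ 2 * (Real.log (a * (x0 * Real.exp κ)) + 1) :=
      mul_le_mul_of_nonneg_left (by linarith) (sq_nonneg _)
    have l1 := abs_le.1 k1
    have l2 := abs_le.1 k2
    have l3 := abs_le.1 k3
    rw [abs_le]
    constructor <;> linarith [l1.1, l1.2, l2.1, l2.2, l3.1, l3.2]

end Pool.Agent.W410.UNEQ
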