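import Pool.Agent.W217.BE.Stm2

set_option autoImplicit false

namespace Pool.Agent.W410.BEZCUT

open Pool.Agent.W217.BE Polynomial

section pr

variable {A : Type} [CommRing A] {M : Type} [AddCommGroup M] [Module A M] {N : ℤ → Submodule A M}

theorem bij (h : DirectSum.IsInternal N) : Function.Bijective (DirectSum.coeLinearMap N) := h

/-- projection onto a piece -/
noncomputable def pr (h : DirectSum.IsInternal N) (t : ℤ) : M →ₗ[A] M :=
  (DirectSum.toModule A ℤ M (fun a => if a = t then (N a).subtype else 0)) ∘ₗ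
    (LinearEquiv.ofBijective (DirectSum.coeLinearMap N) (bij h)).symm.toLinearMap

theorem pr_of_mem (h : DirectSum.IsInternal N) (t : ℤ) {a : ℤ} {x : M}
    (hx : x ∈ N a) : pr h t x = if a = t then x else 0 := by
  have h1 : (LinearEquiv.ofBijective (DirectSum.coeLinearMap N) (bij h)).symm x =
      DirectSum.lof A ℤ (fun i => N i) a ⟨x, hx⟩ := by
    rw [LinearEquiv.symm_apply_eq, LinearEquiv.ofBijective_apply, DirectSum.coeLinearMap_lof]
  unfold pr
  rw [LinearMap.comp_apply, LinearEquiv.coe_coe, h1, DirectSum.toModule_lof]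
  split_ifs <;> rfl

theorem hind (h : DirectSum.IsInternal N) (C : M → Prop) (h0 : C 0)
    (hadd : ∀ x y, C x → C y → C (x + y)) (hmem : ∀ a, ∀ x ∈ N a, C x) (x : M) : C x := by
  have hx : x ∈ iSup N := by
    rw [h.submodule_iSup_eq_top]
    trivial
  exact Submodule.iSup_induction N (motive := C) hx hmem h0 hadd

theorem pr_mem (h : DirectSum.IsInternal N) (t : ℤ) (x : M) : pr h t x ∈ N t := by
  refine hind h (fun x => pr h t x ∈ N t) ?_ ?_ ?_ x
  · simp
  · intro x y hx hy
    simp only [map_add]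
    exact add_mem hx hy
  · intro a x hx
    rw [pr_of_mem h t hx]
    split_ifs with hP
    · rwa [← hP]
    · exact zero_mem _

theorem pr_self (h : DirectSum.IsInternal N) (t : ℤ) {x : M} (hx : x ∈ N t) : pr h t x = x := by
  rw [pr_of_mem h t hx, if_pos rfl]

theorem bounds (h : DirectSum.IsInternal N) (x : M) :
    ∃ m n : ℤ, (∀ t, t < m → pr h t x = 0) ∧ (∀ t, n < t → pr h t x = 0) := by
  refine hind h (fun x => ∃ m n : ℤ, (∀ t, t < m → pr h t x = 0) ∧
    (∀ t, n < t → pr h t x = 0)) ?_ ?_ ?_ x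
  · exact ⟨0, 0, fun t _ => map_zero _, fun t _ => map_zero _⟩
  · rintro x y ⟨m, n, h1, h2⟩ ⟨m', n', h1', h2'⟩
    refine ⟨min m m', max n n', fun t ht => ?_, fun t ht => ?_⟩
    · rw [map_add, h1 t (lt_of_lt_of_le ht (min_le_left _ _)),
        h1' t (lt_of_lt_of_le ht (min_le_right _ _)), add_zero]
    · rw [map_add, h2 t (lt_of_le_of_lt (le_max_left _ _) ht),
        h2' t (lt_of_le_of_lt (le_max_right _ _) ht), add_zero]
  · intro a x hx
    refine ⟨a, a, fun t ht => ?_, fun t ht => ?_⟩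
    · rw [pr_of_mem h t hx, if_neg ht.ne']
    · rw [pr_of_mem h t hx, if_neg ht.ne]

end pr

section pol

variable {C : Type} [CommRing C] {M : Type} [AddCommGroup M] [Module C[X] M] [Module C M]
  [IsScalarTower C C[X] M] {N : ℤ → Submodule C M}

theorem C_smul' (a : C) (x : M) : (Polynomial.C a : C[X]) • x = a • x := by
  rw [← mul_one (Polynomial.C a), ← Polynomial.smul_eq_C_mul, smul_assoc, one_smul]

theorem sc (a : C) (x : M) : a • ((X : C[X]) • x) = (X : C[X]) • (a • x) := by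
  have h1 := C_smul' a ((X : C[X]) • x)
  have h2 := C_smul' a x
  rw [← h1, ← h2, ← mul_smul, ← mul_smul, mul_comm]

theorem pr_X (h : DirectSum.IsInternal N) (hX : ∀ t x, x ∈ N t → (X : C[X]) • x ∈ N (t + 1))
    (t : ℤ) (x : M) : pr h (t + 1) ((X : C[X]) • x) = (X : C[X]) • pr h t x := by
  refine hind h (fun x => pr h (t + 1) ((X : C[X]) • x) = (X : C[X]) • pr h t x) ?_ ?_ ?_ x
  · simp
  · intro x y hx hy
    simp only [smul_add, map_add, hx, hy]
  · intro a x hx
    rw [pr_of_mem h t hx, pr_of_mem h (t + 1) (hX a x hx)]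
    by_cases hat : a = t
    · rw [if_pos hat, if_pos (by rw [hat])]
    · rw [if_neg hat, if_neg (by intro h2; exact hat (by linarith)), smul_zero]

theorem pr_X' (h : DirectSum.IsInternal N) (hX : ∀ t x, x ∈ N t → (X : C[X]) • x ∈ N (t + 1))
    (t : ℤ) (x : M) : pr h t ((X : C[X]) • x) = (X : C[X]) • pr h (t - 1) x := by
  have := pr_X h hX (t - 1) x
  rwa [sub_add_cancel] at this

theorem low (h : DirectSum.IsInternal N) (hX : ∀ t x, x ∈ N t → (X : C[X]) • x ∈ N (t + 1))
    (m : ℤ) (q : C[X]) : ∀ x : M, (∀ t, t < m → pr h t x = 0) →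
      ∀ t, t < m → pr h t (q • x) = 0 := by
  induction q using Polynomial.induction_on with
  | C a =>
    intro x hx t ht
    rw [C_smul', map_smul, hx t ht, smul_zero]
  | add p q hp hq =>
    intro x hx t ht
    rw [add_smul, map_add, hp x hx t ht, hq x hx t ht, add_zero]
  | monomial n a ih =>
    intro x hx t ht
    rw [pow_succ', ← mul_assoc, mul_comm _ X, mul_assoc, mul_smul, pr_X' h hX,
      ih x hx (t - 1) (by linarith), smul_zero]

theorem low_top (h : DirectSum.IsInternal N)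
    (hX : ∀ t x, x ∈ N t → (X : C[X]) • x ∈ N (t + 1))
    (m : ℤ) (q : C[X]) (x : M) (hx : ∀ t, t < m → pr h t x = 0) :
    pr h m (q • x) = q.coeff 0 • pr h m x := by
  have h1 : q • x = (X : C[X]) • (q.divX • x) + q.coeff 0 • x := by
    conv_lhs => rw [← Polynomial.divX_mul_X_add q]
    rw [add_smul, mul_comm, mul_smul, C_smul']
  rw [h1, map_add, pr_X' h hX, low h hX m _ x hx (m - 1) (by linarith), smul_zero, zero_add,
    map_smul]

/-- the part of degree at least `m` -/
def Mg (h : DirectSum.IsInternal N) (hX : ∀ t x, x ∈ N t → (X : C[X]) • x ∈ N (t + 1))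
    (m : ℤ) : Submodule C[X] M where
  carrier := {x | ∀ t, t < m → pr h t x = 0}
  zero_mem' := fun t _ => map_zero _
  add_mem' := fun {x y} hx hy t ht => by rw [map_add, hx t ht, hy t ht, add_zero]
  smul_mem' := fun q x hx => low h hX m q x hx

theorem fin_piece [IsNoetherianRing C] [Module.Finite C[X] M] (h : DirectSum.IsInternal N)
    (hX : ∀ t x, x ∈ N t → (X : C[X]) • x ∈ N (t + 1)) (m : ℤ) : Module.Finite C (N m) := by
  classical
  have : IsNoetherian C[X] M := isNoetherian_of_isNoetherianRing_of_finite C[X] M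
  obtain ⟨S, hS⟩ := IsNoetherian.noetherian (Mg h hX m)
  rw [Module.Finite.iff_fg]
  refine ⟨S.image (pr h m), ?_⟩
  apply le_antisymm
  · rw [Submodule.span_le]
    intro y hy
    rw [Finset.mem_coe, Finset.mem_image] at hy
    obtain ⟨x, _, rfl⟩ := hy
    exact pr_mem h m x
  · intro x hx
    have hxm : x ∈ Mg h hX m := by
      intro t ht
      rw [pr_of_mem h t hx, if_neg ht.ne']
    rw [← hS] at hxm
    rw [← pr_self h m hx]
    refine Submodule.span_induction (p := fun x _ => pr h m x ∈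
      Submodule.span C (↑(S.image (pr h m)) : Set M)) ?_ ?_ ?_ ?_ hxm
    · intro y hy
      exact Submodule.subset_span (Finset.mem_coe.2 (Finset.mem_image_of_mem _ hy))
    · rw [map_zero]; exact zero_mem _
    · intro y z _ _ hy hz
      rw [map_add]
      exact add_mem hy hz
    · intro q y hy hz
      have hym : y ∈ Mg h hX m := by rw [← hS]; exact hy
      rw [low_top h hX m q y hym]
      exact Submodule.smul_mem _ _ hz

theorem below [Module.Finite C[X] M] (h : DirectSum.IsInternal N)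
    (hX : ∀ t x, x ∈ N t → (X : C[X]) • x ∈ N (t + 1)) :
    ∃ m : ℤ, ∀ t, t < m → ∀ x ∈ N t, x = 0 := by
  classical
  obtain ⟨S, hS⟩ := (Module.Finite.fg_top : (⊤ : Submodule C[X] M).FG)
  choose m n h1 h2 using bounds h
  obtain ⟨b, hb⟩ := (S.image m).bddBelow
  refine ⟨b, fun t ht x hx => ?_⟩
  have h3 : (⊤ : Submodule C[X] M) ≤ Mg h hX b := by
    rw [← hS, Submodule.span_le]
    intro y hy t' ht'
    exact h1 y t' (lt_of_lt_of_le ht' (hb (Finset.mem_coe.2 (Finset.mem_image_of_mem m hy))))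
  rw [← pr_self h t hx]
  exact h3 (Submodule.mem_top (x := x)) t ht

theorem above [Module.Finite C[X] M] (h : DirectSum.IsInternal N)
    (hX : ∀ t x, x ∈ N t → (X : C[X]) • x ∈ N (t + 1)) :
    ∃ T : ℤ, ∀ t, T < t → ∀ x ∈ N t, ∃ y ∈ N (t - 1), x = (X : C[X]) • y := by
  classical
  obtain ⟨S, hS⟩ := (Module.Finite.fg_top : (⊤ : Submodule C[X] M).FG)
  choose m n h1 h2 using bounds h
  obtain ⟨b, hb⟩ := (S.image n).bddAbove
  refine ⟨b, fun t ht x hx => ?_⟩
  have h3 : ∀ x ∈ Submodule.span C[X] (S : Set M), ∃ y ∈ N (t - 1),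
      pr h t x = (X : C[X]) • y := by
    intro x hx
    refine Submodule.span_induction (p := fun x _ => ∃ y ∈ N (t - 1),
      pr h t x = (X : C[X]) • y) ?_ ?_ ?_ ?_ hx
    · intro y hy
      refine ⟨0, zero_mem _, ?_⟩
      rw [smul_zero]
      exact h2 y t (lt_of_le_of_lt (hb (Finset.mem_coe.2 (Finset.mem_image_of_mem n hy))) ht)
    · exact ⟨0, zero_mem _, by rw [smul_zero, map_zero]⟩
    · rintro y z _ _ ⟨y', hy', e1⟩ ⟨z', hz', e2⟩
      exact ⟨y' + z', add_mem hy' hz', by rw [map_add, e1, e2, smul_add]⟩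
    · rintro q y _ ⟨y', hy', e1⟩
      refine ⟨pr h (t - 1) (q.divX • y) + q.coeff 0 • y',
        add_mem (pr_mem h _ _) (Submodule.smul_mem _ _ hy'), ?_⟩
      have h4 : q • y = (X : C[X]) • (q.divX • y) + q.coeff 0 • y := by
        conv_lhs => rw [← Polynomial.divX_mul_X_add q]
        rw [add_smul, mul_comm, mul_smul, C_smul']
      rw [h4, map_add, pr_X' h hX, LinearMap.map_smul (pr h t) (q.coeff 0) y, e1, smul_add, sc]
  obtain ⟨y, hy, e⟩ := h3 x (by rw [hS]; exact Submodule.mem_top)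
  exact ⟨y, hy, by rw [← e, pr_self h t hx]⟩

theorem above' {T : ℤ} (hT : ∀ t, T < t → ∀ x ∈ N t, ∃ y ∈ N (t - 1), x = (X : C[X]) • y)
    (k : ℕ) : ∀ t, T + k < t → ∀ x ∈ N t, ∃ y ∈ N (t - k), x = (X ^ k : C[X]) • y := by
  induction k with
  | zero =>
    intro t _ x hx
    exact ⟨x, by simpa using hx, by simp⟩
  | succ k ih =>
    intro t ht x hx
    push_cast at ht
    obtain ⟨y, hy, rfl⟩ := hT t (by linarith) x hx
    obtain ⟨z, hz, rfl⟩ := ih (t - 1) (by linarith) y hy
    refine ⟨z, ?_, ?_⟩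
    · have e : t - 1 - (k : ℤ) = t - ((k + 1 : ℕ) : ℤ) := by push_cast; ring
      rwa [e] at hz
    · rw [← mul_smul, pow_succ']

theorem X_pow_mem (hX : ∀ t x, x ∈ N t → (X : C[X]) • x ∈ N (t + 1)) (k : ℕ) :
    ∀ t x, x ∈ N t → (X ^ k : C[X]) • x ∈ N (t + k) := by
  induction k with
  | zero => intro t x hx; simpa using hx
  | succ k ih =>
    intro t x hx
    have h1 := hX _ _ (ih t x hx)
    rw [← mul_smul, ← pow_succ'] at h1
    have e : t + (k : ℤ) + 1 = t + ((k + 1 : ℕ) : ℤ) := by push_cast; ring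
    rwa [e] at h1

theorem kill (h : DirectSum.IsInternal N) (hX : ∀ t x, x ∈ N t → (X : C[X]) • x ∈ N (t + 1))
    {n : ℕ} {s : C[X]} (hs : ∀ x : M, (s * X ^ n) • x = 0) (t : ℤ) (x : M) (hx : x ∈ N t) :
    s.coeff 0 • ((X ^ n : C[X]) • x) = 0 := by
  have h1 := X_pow_mem hX n t x hx
  have h2 := low_top h hX (t + n) s ((X ^ n : C[X]) • x) (by
    intro t' ht'
    rw [pr_of_mem h t' h1, if_neg ht'.ne'])
  rw [pr_self h _ h1, ← mul_smul, hs x, map_zero] at h2
  exact h2.symm

end pol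

theorem uniform {A κ : Type} [CommRing A] [Field κ] (χ : A →+* κ) (P : Type) [AddCommGroup P]
    [Module A P] [Module.Finite A P] (hP : ¬ NZ χ P) : ∃ s : A, χ s ≠ 0 ∧ ∀ x : P, s • x = 0 := by
  classical
  have h1 : ∀ x : P, ∃ s : A, χ s ≠ 0 ∧ s • x = 0 := by
    intro x
    by_contra hx
    push Not at hx
    exact hP ⟨x, hx⟩
  choose f hf1 hf2 using h1
  obtain ⟨S, hS⟩ := (Module.Finite.fg_top : (⊤ : Submodule A P).FG)
  refine ⟨∏ y ∈ S, f y, ?_, fun x => ?_⟩
  · rw [map_prod]
    exact Finset.prod_ne_zero_iff.2 fun y _ => hf1 y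
  · have hx : x ∈ Submodule.span A (S : Set P) := by rw [hS]; exact Submodule.mem_top
    refine Submodule.span_induction (p := fun x _ => (∏ y ∈ S, f y) • x = 0) ?_ ?_ ?_ ?_ hx
    · intro y hy
      rw [← Finset.prod_erase_mul S f hy, mul_smul, hf2, smul_zero]
    · rw [smul_zero]
    · intro y z _ _ hy hz
      rw [smul_add, hy, hz, add_zero]
    · intro a y _ hy
      rw [smul_comm, hy, smul_zero]

theorem main : ZCUT := by
  classical
  intro C κ _ _ _ χ M _ _ _ _ _ N h hX hNZ hkill top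
  obtain ⟨n, s, hs0, hs⟩ := hkill
  have hfin := fun t => fin_piece h hX t
  -- nonempty
  have hne : ∃ t, NZ χ (N t) := by
    by_contra hcon
    push Not at hcon
    obtain ⟨x, hx⟩ := hNZ
    have h1 : ∃ r : C, χ r ≠ 0 ∧ r • x = 0 := by
      refine hind h (fun x => ∃ r : C, χ r ≠ 0 ∧ r • x = 0) ?_ ?_ ?_ x
      · exact ⟨1, by rw [map_one]; exact one_ne_zero, smul_zero _⟩
      · rintro x y ⟨r, hr, hrx⟩ ⟨r', hr', hry⟩
        refine ⟨r * r', by rw [map_mul]; exact mul_ne_zero hr hr', ?_⟩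
        rw [smul_add, mul_smul r r' y, hry, smul_zero, mul_comm, mul_smul, hrx, smul_zero,
          add_zero]
      · intro a x hx
        obtain ⟨r, hr, hr2⟩ := uniform χ (N a) (hcon a)
        exact ⟨r, hr, congrArg Subtype.val (hr2 ⟨x, hx⟩)⟩
    obtain ⟨r, hr, hrx⟩ := h1
    refine hx (Polynomial.C r) ?_ (by rw [C_smul', hrx])
    simpa using hr
  obtain ⟨m, hm⟩ := below h hX
  obtain ⟨T, hT⟩ := above h hX
  have hlow : ∀ t, NZ χ (N t) → m ≤ t := by
    intro t ht
    by_contra hlt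
    push Not at hlt
    obtain ⟨x, hx⟩ := ht
    refine hx 1 (by rw [map_one]; exact one_ne_zero) ?_
    rw [one_smul]
    exact Subtype.ext (hm t hlt x x.2)
  have hup : ∀ t, NZ χ (N t) → t ≤ T + n := by
    intro t ht
    by_contra hlt
    push Not at hlt
    obtain ⟨x, hx⟩ := ht
    refine hx (s.coeff 0) hs0 ?_
    obtain ⟨y, hy, hxy⟩ := above' hT n t hlt x x.2
    apply Subtype.ext
    have h1 := kill h hX hs _ y hy
    rw [← hxy] at h1
    exact h1
  have hpr : ∀ t, ∃ π : M →ₗ[C] N t, ∀ x, ((π x : N t) : M) = pr h t x :=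
    fun t => ⟨(pr h t).codRestrict (N t) (fun x => pr_mem h t x), fun x => rfl⟩
  cases top with
  | false =>
    obtain ⟨t, ht, hmin⟩ := Int.exists_least_of_bdd (P := fun t => NZ χ (N t)) ⟨m, hlow⟩ hne
    have hnot : ¬ NZ χ (N (t - 1)) := fun h' => by
      have := hmin _ h'
      linarith
    obtain ⟨r, hr, hr2⟩ := uniform χ (N (t - 1)) hnot
    obtain ⟨π, hπ⟩ := hpr t
    refine ⟨t, r • π, (N t).subtype, r, hr, ht, hfin t, fun x => ?_, fun _ x => ?_,
      fun h' => absurd h' (by decide)⟩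
    · apply Subtype.ext
      rw [LinearMap.smul_apply, Submodule.coe_smul, Submodule.coe_smul, hπ]
      rw [Submodule.subtype_apply, pr_self h t x.2]
    · apply Subtype.ext
      rw [LinearMap.smul_apply, Submodule.coe_smul, hπ, pr_X' h hX]
      have h1 : r • pr h (t - 1) x = 0 := congrArg Subtype.val (hr2 ⟨_, pr_mem h (t - 1) x⟩)
      rw [sc, h1, smul_zero]
      rfl
  | true =>
    obtain ⟨t, ht, hmax⟩ := Int.exists_greatest_of_bdd (P := fun t => NZ χ (N t))
      ⟨T + n, hup⟩ hne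
    have hnot : ¬ NZ χ (N (t + 1)) := fun h' => by
      have := hmax _ h'
      linarith
    obtain ⟨r, hr, hr2⟩ := uniform χ (N (t + 1)) hnot
    obtain ⟨π, hπ⟩ := hpr t
    refine ⟨t, π, r • (N t).subtype, r, hr, ht, hfin t, fun x => ?_,
      fun h' => absurd h' (by decide), fun _ x => ?_⟩
    · apply Subtype.ext
      rw [LinearMap.smul_apply, map_smul, Submodule.coe_smul, Submodule.coe_smul, hπ]
      rw [Submodule.subtype_apply, pr_self h t x.2]
    · have h1 : r • ((X : C[X]) • (x : M)) = 0 :=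
        congrArg Subtype.val (hr2 ⟨_, hX t x x.2⟩)
      rw [LinearMap.smul_apply, Submodule.subtype_apply, ← sc, h1]

end Pool.Agent.W410.BEZCUT
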